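import Pool.Agent.H96.CP.Stm

/-!
# Project CP: near affinity of averages of translates (`S_affine`), area of the average (`S_area`)
-/

set_option autoImplicit false

open Real Set MeasureTheory Metric Filter Topology
open scoped ENNReal Nat ComplexConjugate

namespace Pool.Agent.H93.CP

open Pool.Agent.H96.CP

/-! ## Discrete Taylor estimate -/

lemma lin1 (g : ℕ → ℂ) (c : ℂ) (E : ℝ) : ∀ N : ℕ,
    (∀ a < N, ‖g (a + 1) - g a - c‖ ≤ E) → ‖g N - g 0 - N * c‖ ≤ N * E := by
  intro N
  induction N with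
  | zero => intro _; simp
  | succ N ih =>
    intro h
    have h1 := ih fun a ha => h a (by omega)
    have h2 := h N (by omega)
    have : g (N + 1) - g 0 - ((N + 1 : ℕ) : ℂ) * c
        = (g N - g 0 - N * c) + (g (N + 1) - g N - c) := by push_cast; ring
    rw [this]
    calc _ ≤ ‖g N - g 0 - N * c‖ + ‖g (N + 1) - g N - c‖ := norm_add_le _ _
      _ ≤ N * E + E := by linarith
      _ = ((N + 1 : ℕ) : ℝ) * E := by push_cast; ring

lemma lin0 (g : ℕ → ℂ) (E : ℝ) (N : ℕ)
    (h : ∀ a < N, ‖g (a + 1) - g a‖ ≤ E) : ‖g N - g 0‖ ≤ N * E := by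
  have := lin1 g 0 E N (by simpa using h)
  simpa using this

lemma taylor (f : ℕ → ℕ → ℂ) (R : ℕ) (B : ℝ) (hB : 0 ≤ B)
    (h1 : ∀ i, i + 2 ≤ R → ‖(f (i + 2) 0 - f (i + 1) 0) - (f (i + 1) 0 - f i 0)‖ ≤ B)
    (h2 : ∀ j, j + 2 ≤ R → ‖(f 0 (j + 2) - f 0 (j + 1)) - (f 0 (j + 1) - f 0 j)‖ ≤ B)
    (h3 : ∀ i j, i + 1 ≤ R → j + 1 ≤ R →
      ‖(f (i + 1) (j + 1) - f (i + 1) j) - (f i (j + 1) - f i j)‖ ≤ B) :
    ∀ i j : ℕ, i ≤ R → j ≤ R →
      ‖f i j - f 0 0 - i * (f 1 0 - f 0 0) - j * (f 0 1 - f 0 0)‖ ≤ 3 * R ^ 2 * B := by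
  intro i j hi hj
  have ci : (i : ℝ) ≤ R := by exact_mod_cast hi
  have cj : (j : ℝ) ≤ R := by exact_mod_cast hj
  have hA : ∀ a < i, ‖f (a + 1) 0 - f a 0 - (f 1 0 - f 0 0)‖ ≤ R * B := by
    intro a ha
    have := lin0 (fun a => f (a + 1) 0 - f a 0) B a (fun b hb => h1 b (by omega))
    refine this.trans ?_
    have : (a : ℝ) ≤ R := by exact_mod_cast (by omega : a ≤ R)
    gcongr
  have hC : ∀ b < j, ‖f 0 (b + 1) - f 0 b - (f 0 1 - f 0 0)‖ ≤ R * B := by
    intro b hb
    have := lin0 (fun b => f 0 (b + 1) - f 0 b) B b (fun c hc => h2 c (by omega))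
    refine this.trans ?_
    have : (b : ℝ) ≤ R := by exact_mod_cast (by omega : b ≤ R)
    gcongr
  have hD : ∀ b < j, ‖(f i (b + 1) - f i b) - (f 0 (b + 1) - f 0 b)‖ ≤ R * B := by
    intro b hb
    have := lin0 (fun a => f a (b + 1) - f a b) B i (fun a ha => h3 a b (by omega) (by omega))
    refine this.trans ?_
    gcongr
  have hE : ∀ b < j, ‖f i (b + 1) - f i b - (f 0 1 - f 0 0)‖ ≤ 2 * R * B := by
    intro b hb
    have h1 := hD b hb
    have h2 := hC b hb
    have : f i (b + 1) - f i b - (f 0 1 - f 0 0) =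
      ((f i (b + 1) - f i b) - (f 0 (b + 1) - f 0 b)) + (f 0 (b + 1) - f 0 b - (f 0 1 - f 0 0)) := by
      ring
    rw [this]
    refine (norm_add_le _ _).trans ?_
    linarith
  have k1 := lin1 (fun a => f a 0) (f 1 0 - f 0 0) (R * B) i hA
  have k2 := lin1 (fun b => f i b) (f 0 1 - f 0 0) (2 * R * B) j hE
  have : f i j - f 0 0 - i * (f 1 0 - f 0 0) - j * (f 0 1 - f 0 0) =
    (f i 0 - f 0 0 - i * (f 1 0 - f 0 0)) + (f i j - f i 0 - j * (f 0 1 - f 0 0)) := by ring
  rw [this]
  refine (norm_add_le _ _).trans ?_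
  have e1 : (i : ℝ) * (R * B) ≤ R * (R * B) := by gcongr
  have e2 : (j : ℝ) * (2 * R * B) ≤ R * (2 * R * B) := by gcongr
  calc _ ≤ (i : ℝ) * (R * B) + j * (2 * R * B) := add_le_add k1 k2
    _ ≤ R * (R * B) + R * (2 * R * B) := add_le_add e1 e2
    _ = 3 * R ^ 2 * B := by ring

/-! ## Two projections bound the norm -/

lemma re_om (z : ℂ) : (conj om * z).re = z.re / 2 + √3 / 2 * z.im := by
  simp [om, Complex.mul_re]; ring

lemma re_om2 (z : ℂ) : (conj (om - 1) * z).re = - z.re / 2 + √3 / 2 * z.im := by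
  simp [om, Complex.mul_re]; ring

lemma re_om2' (z : ℂ) : (conj (om - 1) * z).re = (conj om * z).re - z.re := by
  rw [re_om, re_om2]; ring

lemma s3 : (1.7 : ℝ) ≤ √3 := Real.le_sqrt_of_sq_le (by norm_num)

lemma norm_le1 (z : ℂ) : ‖z‖ ≤ 2 * (|z.re| + |(conj om * z).re|) := by
  have h := Complex.norm_le_abs_re_add_abs_im z
  have h3 := s3
  have : |z.im| * 1.7 / 2 ≤ |(conj om * z).re| + |z.re| / 2 := by
    have e : √3 / 2 * z.im = (conj om * z).re - z.re / 2 := by rw [re_om]; ring
    have : |√3 / 2 * z.im| ≤ |(conj om * z).re| + |z.re / 2| := by rw [e]; exact abs_sub _ _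
    rw [abs_mul, abs_div, abs_div, abs_of_pos (by positivity : 0 < √3), abs_two] at this
    nlinarith [abs_nonneg z.im]
  nlinarith [abs_nonneg z.im, abs_nonneg z.re, abs_nonneg (conj om * z).re]

lemma norm_le2 (z : ℂ) : ‖z‖ ≤ 2 * (|z.re| + |(conj (om - 1) * z).re|) := by
  have h := Complex.norm_le_abs_re_add_abs_im z
  have h3 := s3
  have : |z.im| * 1.7 / 2 ≤ |(conj (om - 1) * z).re| + |z.re| / 2 := by
    have e : √3 / 2 * z.im = (conj (om - 1) * z).re + z.re / 2 := by rw [re_om2]; ring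
    have : |√3 / 2 * z.im| ≤ |(conj (om - 1) * z).re| + |z.re / 2| := by rw [e]; exact abs_add_le _ _
    rw [abs_mul, abs_div, abs_div, abs_of_pos (by positivity : 0 < √3), abs_two] at this
    nlinarith [abs_nonneg z.im]
  nlinarith [abs_nonneg z.im, abs_nonneg z.re, abs_nonneg (conj (om - 1) * z).re]

lemma norm_le3 (z : ℂ) : ‖z‖ ≤ 2 * (|(conj om * z).re| + |(conj (om - 1) * z).re|) := by
  have h := Complex.norm_le_abs_re_add_abs_im z
  have h3 := s3
  have e1 : z.re = (conj om * z).re - (conj (om - 1) * z).re := by rw [re_om, re_om2]; ring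
  have h1 : |z.re| ≤ |(conj om * z).re| + |(conj (om - 1) * z).re| := by
    conv_lhs => rw [e1]
    exact abs_sub _ _
  have e2 : √3 * z.im = (conj om * z).re + (conj (om - 1) * z).re := by rw [re_om, re_om2]; ring
  have h2 : |√3 * z.im| ≤ |(conj om * z).re| + |(conj (om - 1) * z).re| := by
    rw [e2]; exact abs_add_le _ _
  rw [abs_mul, abs_of_pos (by positivity : 0 < √3)] at h2
  nlinarith [abs_nonneg z.im, abs_nonneg (conj om * z).re, abs_nonneg (conj (om - 1) * z).re]

lemma norm_om2 : ‖(conj (om - 1) : ℂ)‖ = 1 := by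
  rw [Complex.norm_conj]
  have : ‖om - 1‖ ^ 2 = 1 := by
    rw [← Complex.normSq_eq_norm_sq, Complex.normSq_apply]
    simp [om]
    have := Real.mul_self_sqrt (show (0:ℝ) ≤ 3 by norm_num)
    nlinarith
  nlinarith [norm_nonneg (om - 1), sq_nonneg (‖om - 1‖ - 1), sq_nonneg (‖om - 1‖ + 1)]

/-! ## Line sums -/

section

variable {n : ℕ} {u : ℕ → ℕ → ℂ}

lemma term1_nonneg (hu : Pos n u) {x j : ℕ} (hx : x ≤ n) (hj : j ≤ n) :
    0 ≤ (if x < n then D0 u x j else 0) + (if j < n then D1 u x j else 0) +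
    (if x < n ∧ j < n then D2 u x j else 0) := by
  have h1 : 0 ≤ if x < n then D0 u x j else 0 := by
    split_ifs with h
    · exact hu.1 _ _ h hj
    · exact le_rfl
  have h2 : 0 ≤ if j < n then D1 u x j else 0 := by
    split_ifs with h
    · exact hu.2.1 _ _ hx h
    · exact le_rfl
  have h3 : 0 ≤ if x < n ∧ j < n then D2 u x j else 0 := by
    split_ifs with h
    · exact hu.2.2 _ _ h.1 h.2
    · exact le_rfl
  linarith

lemma term2_nonneg (hu : Pos n u) {x i : ℕ} (hx : x ≤ n) (hi : i ≤ n) :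
    0 ≤ (if i < n then D0 u i x else 0) + (if x < n then D1 u i x else 0) +
    (if i < n ∧ x < n then D2 u i x else 0) := by
  have h1 : 0 ≤ if i < n then D0 u i x else 0 := by
    split_ifs with h
    · exact hu.1 _ _ h hx
    · exact le_rfl
  have h2 : 0 ≤ if x < n then D1 u i x else 0 := by
    split_ifs with h
    · exact hu.2.1 _ _ hi h
    · exact le_rfl
  have h3 : 0 ≤ if i < n ∧ x < n then D2 u i x else 0 := by
    split_ifs with h
    · exact hu.2.2 _ _ h.1 h.2
    · exact le_rfl
  linarith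

lemma LS_nonneg (hu : Pos n u) {x : ℕ} (hx : x ≤ n) : 0 ≤ LS n u x := by
  unfold LS
  refine add_nonneg (Finset.sum_nonneg fun j hj => ?_) (Finset.sum_nonneg fun j hj => ?_)
  · exact term1_nonneg hu hx (by simpa [Nat.lt_succ_iff] using hj)
  · exact term2_nonneg hu hx (by simpa [Nat.lt_succ_iff] using hj)

/-- sum over a part of a column -/
lemma col_le (hu : Pos n u) {x a k : ℕ} (hx : x < n) (ha : a + k ≤ n) (g : ℕ → ℝ)
    (hg : ∀ y < n, g y = D0 u x y ∨ g y = D1 u x y ∨ g y = D2 u x y) :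
    0 ≤ ∑ t ∈ Finset.range k, g (a + t) ∧ ∑ t ∈ Finset.range k, g (a + t) ≤ LS n u x := by
  have hp : ∀ y < n, 0 ≤ g y ∧ g y ≤ (if x < n then D0 u x y else 0) +
      (if y < n then D1 u x y else 0) + (if x < n ∧ y < n then D2 u x y else 0) := by
    intro y hy
    have h0 := hu.1 x y hx hy.le
    have h1 := hu.2.1 x y hx.le hy
    have h2 := hu.2.2 x y hx hy
    rw [if_pos hx, if_pos hy, if_pos ⟨hx, hy⟩]
    rcases hg y hy with e | e | e <;> rw [e] <;> constructor <;> linarith
  refine ⟨Finset.sum_nonneg fun t ht => (hp _ (by simp at ht; omega)).1, ?_⟩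
  have hpos2 : 0 ≤ ∑ i ∈ Finset.range (n + 1), ((if i < n then D0 u i x else 0) +
      (if x < n then D1 u i x else 0) + (if i < n ∧ x < n then D2 u i x else 0)) :=
    Finset.sum_nonneg fun j hj => term2_nonneg hu hx.le (by simpa [Nat.lt_succ_iff] using hj)
  have : ∑ t ∈ Finset.range k, g (a + t) ≤ ∑ j ∈ Finset.range (n + 1),
      ((if x < n then D0 u x j else 0) +
      (if j < n then D1 u x j else 0) + (if x < n ∧ j < n then D2 u x j else 0)) := by
    calc _ ≤ ∑ t ∈ Finset.range k, ((if x < n then D0 u x (a + t) else 0) +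
      (if a + t < n then D1 u x (a + t) else 0) + (if x < n ∧ a + t < n then D2 u x (a + t) else 0)) :=
          Finset.sum_le_sum fun t ht => (hp _ (by simp at ht; omega)).2
      _ = ∑ j ∈ (Finset.range k).map (addLeftEmbedding a), ((if x < n then D0 u x j else 0) +
      (if j < n then D1 u x j else 0) + (if x < n ∧ j < n then D2 u x j else 0)) := by
          rw [Finset.sum_map]; rfl
      _ ≤ _ := by
          refine Finset.sum_le_sum_of_subset_of_nonneg ?_ ?_
          · intro y hy
            simp only [Finset.mem_map, Finset.mem_range, addLeftEmbedding_apply] at hy ⊢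
            obtain ⟨t, ht, rfl⟩ := hy
            omega
          · intro y hy _
            exact term1_nonneg hu hx.le (by simpa [Nat.lt_succ_iff] using hy)
  unfold LS
  linarith

/-- sum over a part of a row -/
lemma row_le (hu : Pos n u) {x a k : ℕ} (hx : x < n) (ha : a + k ≤ n) (g : ℕ → ℝ)
    (hg : ∀ y < n, g y = D0 u y x ∨ g y = D1 u y x ∨ g y = D2 u y x) :
    0 ≤ ∑ t ∈ Finset.range k, g (a + t) ∧ ∑ t ∈ Finset.range k, g (a + t) ≤ LS n u x := by
  have hp : ∀ y < n, 0 ≤ g y ∧ g y ≤ (if y < n then D0 u y x else 0) +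
      (if x < n then D1 u y x else 0) + (if y < n ∧ x < n then D2 u y x else 0) := by
    intro y hy
    have h0 := hu.1 y x hy hx.le
    have h1 := hu.2.1 y x hy.le hx
    have h2 := hu.2.2 y x hy hx
    rw [if_pos hx, if_pos hy, if_pos ⟨hy, hx⟩]
    rcases hg y hy with e | e | e <;> rw [e] <;> constructor <;> linarith
  refine ⟨Finset.sum_nonneg fun t ht => (hp _ (by simp at ht; omega)).1, ?_⟩
  have hpos2 : 0 ≤ ∑ j ∈ Finset.range (n + 1), ((if x < n then D0 u x j else 0) +
      (if j < n then D1 u x j else 0) + (if x < n ∧ j < n then D2 u x j else 0)) :=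
    Finset.sum_nonneg fun j hj => term1_nonneg hu hx.le (by simpa [Nat.lt_succ_iff] using hj)
  have : ∑ t ∈ Finset.range k, g (a + t) ≤ ∑ j ∈ Finset.range (n + 1),
      ((if j < n then D0 u j x else 0) +
      (if x < n then D1 u j x else 0) + (if j < n ∧ x < n then D2 u j x else 0)) := by
    calc _ ≤ ∑ t ∈ Finset.range k, ((if a + t < n then D0 u (a + t) x else 0) +
      (if x < n then D1 u (a + t) x else 0) + (if a + t < n ∧ x < n then D2 u (a + t) x else 0)) :=
          Finset.sum_le_sum fun t ht => (hp _ (by simp at ht; omega)).2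
      _ = ∑ j ∈ (Finset.range k).map (addLeftEmbedding a), ((if j < n then D0 u j x else 0) +
      (if x < n then D1 u j x else 0) + (if j < n ∧ x < n then D2 u j x else 0)) := by
          rw [Finset.sum_map]; rfl
      _ ≤ _ := by
          refine Finset.sum_le_sum_of_subset_of_nonneg ?_ ?_
          · intro y hy
            simp only [Finset.mem_map, Finset.mem_range, addLeftEmbedding_apply] at hy ⊢
            obtain ⟨t, ht, rfl⟩ := hy
            omega
          · intro y hy _
            exact term2_nonneg hu hx.le (by simpa [Nat.lt_succ_iff] using hy)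
  unfold LS
  linarith

end

/-! ## The second differences of the average -/

/-- the differences of the average in the first direction -/
lemma dW (d k : ℕ) (u : ℕ → ℕ → ℂ) (i j : ℕ) :
    Um d k u (i + 1) j - Um d k u i j =
      ((k : ℂ) ^ 2)⁻¹ * ∑ t ∈ Finset.range k, (u (d + i + k) (d + j + t) - u (d + i) (d + j + t)) := by
  unfold Um
  rw [← mul_sub]
  congr 1
  rw [Finset.sum_comm, Finset.sum_comm (s := Finset.range k) (t := Finset.range k)
    (f := fun t₁ t₂ => u (d + t₁ + i) (d + t₂ + j)), ← Finset.sum_sub_distrib]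
  refine Finset.sum_congr rfl fun t _ => ?_
  rw [← Finset.sum_sub_distrib]
  have := Finset.sum_range_sub (fun s => u (d + i + s) (d + j + t)) k
  simp only [add_zero] at this
  rw [← this]
  refine Finset.sum_congr rfl fun s _ => ?_
  congr 2 <;> ring

/-- the differences of the average in the second direction -/
lemma dV (d k : ℕ) (u : ℕ → ℕ → ℂ) (i j : ℕ) :
    Um d k u i (j + 1) - Um d k u i j =
      ((k : ℂ) ^ 2)⁻¹ * ∑ t ∈ Finset.range k, (u (d + i + t) (d + j + k) - u (d + i + t) (d + j)) := by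
  unfold Um
  rw [← mul_sub]
  congr 1
  rw [← Finset.sum_sub_distrib]
  refine Finset.sum_congr rfl fun t _ => ?_
  rw [← Finset.sum_sub_distrib]
  have := Finset.sum_range_sub (fun s => u (d + i + t) (d + j + s)) k
  simp only [add_zero] at this
  rw [← this]
  refine Finset.sum_congr rfl fun s _ => ?_
  congr 2 <;> ring

/-- the mixed second difference over distance `k` -/
noncomputable def XX (d k : ℕ) (u : ℕ → ℕ → ℂ) (i j : ℕ) : ℂ :=
  (u (d + i + k) (d + j + k) - u (d + i) (d + j + k)) - (u (d + i + k) (d + j) - u (d + i) (d + j))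

lemma mixed (d k : ℕ) (u : ℕ → ℕ → ℂ) (i j : ℕ) :
    (Um d k u (i + 1) (j + 1) - Um d k u (i + 1) j) - (Um d k u i (j + 1) - Um d k u i j) =
      ((k : ℂ) ^ 2)⁻¹ * XX d k u i j := by
  rw [dV, dV, ← mul_sub]
  congr 1
  rw [← Finset.sum_sub_distrib]
  have := Finset.sum_range_sub (fun s => u (d + i + s) (d + j + k) - u (d + i + s) (d + j)) k
  simp only [add_zero] at this
  have e : XX d k u i j = u (d + i + k) (d + j + k) - u (d + i + k) (d + j) -
    (u (d + i) (d + j + k) - u (d + i) (d + j)) := by unfold XX; ring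
  rw [e, ← this]
  refine Finset.sum_congr rfl fun s _ => ?_
  congr 3 <;> ring

lemma pureI (d k : ℕ) (u : ℕ → ℕ → ℂ) (i j : ℕ) :
    (Um d k u (i + 2) j - Um d k u (i + 1) j) - (Um d k u (i + 1) j - Um d k u i j) =
      ((k : ℂ) ^ 2)⁻¹ * ∑ t ∈ Finset.range k,
        ((u (d + i + k + 1) (d + j + t) - u (d + i + k) (d + j + t)) -
          (u (d + i + 1) (d + j + t) - u (d + i) (d + j + t))) := by
  rw [dW, dW, ← mul_sub]
  congr 1
  rw [← Finset.sum_sub_distrib]
  refine Finset.sum_congr rfl fun s _ => ?_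
  have e1 : d + (i + 1) + k = d + i + k + 1 := by ring
  have e2 : d + (i + 1) = d + i + 1 := by ring
  rw [e1, e2]
  ring

lemma pureJ (d k : ℕ) (u : ℕ → ℕ → ℂ) (i j : ℕ) :
    (Um d k u i (j + 2) - Um d k u i (j + 1)) - (Um d k u i (j + 1) - Um d k u i j) =
      ((k : ℂ) ^ 2)⁻¹ * ∑ t ∈ Finset.range k,
        ((u (d + i + t) (d + j + k + 1) - u (d + i + t) (d + j + k)) -
          (u (d + i + t) (d + j + 1) - u (d + i + t) (d + j))) := by
  rw [dV, dV, ← mul_sub]
  congr 1
  rw [← Finset.sum_sub_distrib]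
  refine Finset.sum_congr rfl fun s _ => ?_
  have e1 : d + (j + 1) + k = d + j + k + 1 := by ring
  have e2 : d + (j + 1) = d + j + 1 := by ring
  rw [e1, e2]
  ring

lemma abs_sub_le' {a b c d : ℝ} (ha : 0 ≤ a) (hb : 0 ≤ b) (hac : a ≤ c) (hbd : b ≤ d) :
    |a - b| ≤ c + d := by
  rw [abs_le]; constructor <;> linarith

section

variable {n : ℕ} {u : ℕ → ℕ → ℂ} (hu : Pos n u) {d k i j : ℕ}

include hu

lemma XX_le (hi : d + i + k < n) (hj : d + j + k < n) : ‖XX d k u i j‖ ≤
    2 * ((LS n u (d + j + k) + LS n u (d + j)) + (LS n u (d + i + k) + LS n u (d + i))) := by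
  refine (norm_le1 _).trans ?_
  have h1 : (XX d k u i j).re = ∑ t ∈ Finset.range k, D0 u (d + i + t) (d + j + k) -
      ∑ t ∈ Finset.range k, D0 u (d + i + t) (d + j) := by
    have a1 := Finset.sum_range_sub (fun s => (u (d + i + s) (d + j + k)).re) k
    have a2 := Finset.sum_range_sub (fun s => (u (d + i + s) (d + j)).re) k
    simp only [add_zero] at a1 a2
    unfold XX D0
    simp only [Complex.sub_re]
    rw [← a1, ← a2]
    rfl
  have h2 : (conj om * XX d k u i j).re = ∑ t ∈ Finset.range k, D1 u (d + i + k) (d + j + t) -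
      ∑ t ∈ Finset.range k, D1 u (d + i) (d + j + t) := by
    have a1 := Finset.sum_range_sub (fun s => (conj om * u (d + i + k) (d + j + s)).re) k
    have a2 := Finset.sum_range_sub (fun s => (conj om * u (d + i) (d + j + s)).re) k
    simp only [add_zero] at a1 a2
    unfold XX D1
    simp only [mul_sub, Complex.sub_re]
    have b1 : ∀ t, d + j + (t + 1) = d + j + t + 1 := fun t => rfl
    simp only [b1] at a1 a2
    rw [a1, a2]
    ring
  obtain ⟨p1, q1⟩ := row_le hu (x := d + j + k) (a := d + i) (k := k) hj hi.le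
    (fun y => D0 u y (d + j + k)) (fun _ _ => Or.inl rfl)
  obtain ⟨p2, q2⟩ := row_le hu (x := d + j) (a := d + i) (k := k) (by omega) hi.le
    (fun y => D0 u y (d + j)) (fun _ _ => Or.inl rfl)
  obtain ⟨p3, q3⟩ := col_le hu (x := d + i + k) (a := d + j) (k := k) hi hj.le
    (fun y => D1 u (d + i + k) y) (fun _ _ => Or.inr (Or.inl rfl))
  obtain ⟨p4, q4⟩ := col_le hu (x := d + i) (a := d + j) (k := k) (by omega) hj.le
    (fun y => D1 u (d + i) y) (fun _ _ => Or.inr (Or.inl rfl))
  have r1 : |(XX d k u i j).re| ≤ LS n u (d + j + k) + LS n u (d + j) := by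
    rw [h1]; exact abs_sub_le' p1 p2 q1 q2
  have r2 : |(conj om * XX d k u i j).re| ≤ LS n u (d + i + k) + LS n u (d + i) := by
    rw [h2]; exact abs_sub_le' p3 p4 q3 q4
  linarith

lemma XX_le' (hi : d + i + k < n) (hj : d + j + k < n) : |(conj (om - 1) * XX d k u i j).re| ≤
    2 * ((LS n u (d + j + k) + LS n u (d + j)) + (LS n u (d + i + k) + LS n u (d + i))) := by
  refine (Complex.abs_re_le_norm _).trans ?_
  rw [norm_mul, norm_om2, one_mul]
  exact XX_le hu hi hj

lemma pureI_le (hi : d + i + k < n) (hj : d + j + k < n) :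
    ‖∑ t ∈ Finset.range k,
        ((u (d + i + k + 1) (d + j + t) - u (d + i + k) (d + j + t)) -
          (u (d + i + 1) (d + j + t) - u (d + i) (d + j + t)))‖ ≤
    4 * (LS n u (d + j + k) + LS n u (d + j)) + 8 * (LS n u (d + i + k) + LS n u (d + i)) := by
  refine (norm_le2 _).trans ?_
  set Y := ∑ t ∈ Finset.range k,
        ((u (d + i + k + 1) (d + j + t) - u (d + i + k) (d + j + t)) -
          (u (d + i + 1) (d + j + t) - u (d + i) (d + j + t))) with hY
  have h1 : Y.re = ∑ t ∈ Finset.range k, D0 u (d + i + k) (d + j + t) -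
      ∑ t ∈ Finset.range k, D0 u (d + i) (d + j + t) := by
    rw [hY, Complex.re_sum, ← Finset.sum_sub_distrib]
    rfl
  have h2 : (conj (om - 1) * Y).re = (conj (om - 1) * XX d k u i j).re -
      (∑ t ∈ Finset.range k, D2 u (d + i + k) (d + j + t) -
      ∑ t ∈ Finset.range k, D2 u (d + i) (d + j + t)) := by
    have a1 := Finset.sum_range_sub (fun s => (conj (om - 1) * u (d + i + k) (d + j + s)).re) k
    have a2 := Finset.sum_range_sub (fun s => (conj (om - 1) * u (d + i) (d + j + s)).re) k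
    simp only [add_zero] at a1 a2
    have b1 : ∀ t, d + j + (t + 1) = d + j + t + 1 := fun t => rfl
    simp only [b1] at a1 a2
    have a3 : (conj (om - 1) * XX d k u i j).re =
        ∑ t ∈ Finset.range k, ((conj (om - 1) * u (d + i + k) (d + j + t + 1)).re -
          (conj (om - 1) * u (d + i + k) (d + j + t)).re) -
        ∑ t ∈ Finset.range k, ((conj (om - 1) * u (d + i) (d + j + t + 1)).re -
          (conj (om - 1) * u (d + i) (d + j + t)).re) := by
      rw [a1, a2]
      unfold XX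
      simp only [mul_sub, Complex.sub_re]
      ring
    rw [a3, hY, Finset.mul_sum, Complex.re_sum, ← Finset.sum_sub_distrib, ← Finset.sum_sub_distrib,
      ← Finset.sum_sub_distrib]
    refine Finset.sum_congr rfl fun t _ => ?_
    unfold D2
    simp only [mul_sub, Complex.sub_re]
    ring
  obtain ⟨p1, q1⟩ := col_le hu (x := d + i + k) (a := d + j) (k := k) hi hj.le
    (fun y => D0 u (d + i + k) y) (fun _ _ => Or.inl rfl)
  obtain ⟨p2, q2⟩ := col_le hu (x := d + i) (a := d + j) (k := k) (by omega) hj.le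
    (fun y => D0 u (d + i) y) (fun _ _ => Or.inl rfl)
  obtain ⟨p3, q3⟩ := col_le hu (x := d + i + k) (a := d + j) (k := k) hi hj.le
    (fun y => D2 u (d + i + k) y) (fun _ _ => Or.inr (Or.inr rfl))
  obtain ⟨p4, q4⟩ := col_le hu (x := d + i) (a := d + j) (k := k) (by omega) hj.le
    (fun y => D2 u (d + i) y) (fun _ _ => Or.inr (Or.inr rfl))
  have r1 : |Y.re| ≤ LS n u (d + i + k) + LS n u (d + i) := by
    rw [h1]; exact abs_sub_le' p1 p2 q1 q2
  have r3 : |(∑ t ∈ Finset.range k, D2 u (d + i + k) (d + j + t) -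
      ∑ t ∈ Finset.range k, D2 u (d + i) (d + j + t))| ≤ LS n u (d + i + k) + LS n u (d + i) :=
    abs_sub_le' p3 p4 q3 q4
  have r2 : |(conj (om - 1) * Y).re| ≤ 2 * ((LS n u (d + j + k) + LS n u (d + j)) +
      (LS n u (d + i + k) + LS n u (d + i))) + (LS n u (d + i + k) + LS n u (d + i)) := by
    rw [h2]
    exact (abs_sub _ _).trans (add_le_add (XX_le' hu hi hj) r3)
  linarith

lemma pureJ_le (hi : d + i + k < n) (hj : d + j + k < n) :
    ‖∑ t ∈ Finset.range k,
        ((u (d + i + t) (d + j + k + 1) - u (d + i + t) (d + j + k)) -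
          (u (d + i + t) (d + j + 1) - u (d + i + t) (d + j)))‖ ≤
    8 * (LS n u (d + j + k) + LS n u (d + j)) + 4 * (LS n u (d + i + k) + LS n u (d + i)) := by
  refine (norm_le3 _).trans ?_
  set Y := ∑ t ∈ Finset.range k,
        ((u (d + i + t) (d + j + k + 1) - u (d + i + t) (d + j + k)) -
          (u (d + i + t) (d + j + 1) - u (d + i + t) (d + j))) with hY
  have h1 : (conj om * Y).re = ∑ t ∈ Finset.range k, D1 u (d + i + t) (d + j + k) -
      ∑ t ∈ Finset.range k, D1 u (d + i + t) (d + j) := by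
    rw [hY, Finset.mul_sum, Complex.re_sum, ← Finset.sum_sub_distrib]
    refine Finset.sum_congr rfl fun t _ => ?_
    unfold D1
    simp only [mul_sub, Complex.sub_re]
  have h2 : (conj (om - 1) * Y).re = (conj (om - 1) * XX d k u i j).re +
      (∑ t ∈ Finset.range k, D2 u (d + i + t) (d + j + k) -
      ∑ t ∈ Finset.range k, D2 u (d + i + t) (d + j)) := by
    have a1 := Finset.sum_range_sub (fun s => (conj (om - 1) * u (d + i + s) (d + j + k)).re) k
    have a2 := Finset.sum_range_sub (fun s => (conj (om - 1) * u (d + i + s) (d + j)).re) k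
    simp only [add_zero] at a1 a2
    have b1 : ∀ t, d + i + (t + 1) = d + i + t + 1 := fun t => rfl
    simp only [b1] at a1 a2
    have a3 : (conj (om - 1) * XX d k u i j).re =
        ∑ t ∈ Finset.range k, ((conj (om - 1) * u (d + i + t + 1) (d + j + k)).re -
          (conj (om - 1) * u (d + i + t) (d + j + k)).re) -
        ∑ t ∈ Finset.range k, ((conj (om - 1) * u (d + i + t + 1) (d + j)).re -
          (conj (om - 1) * u (d + i + t) (d + j)).re) := by
      rw [a1, a2]
      unfold XX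
      simp only [mul_sub, Complex.sub_re]
    rw [a3, hY, Finset.mul_sum, Complex.re_sum, ← Finset.sum_sub_distrib, ← Finset.sum_sub_distrib,
      ← Finset.sum_add_distrib]
    refine Finset.sum_congr rfl fun t _ => ?_
    unfold D2
    simp only [mul_sub, Complex.sub_re]
    ring
  obtain ⟨p1, q1⟩ := row_le hu (x := d + j + k) (a := d + i) (k := k) hj hi.le
    (fun y => D1 u y (d + j + k)) (fun _ _ => Or.inr (Or.inl rfl))
  obtain ⟨p2, q2⟩ := row_le hu (x := d + j) (a := d + i) (k := k) (by omega) hi.le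
    (fun y => D1 u y (d + j)) (fun _ _ => Or.inr (Or.inl rfl))
  obtain ⟨p3, q3⟩ := row_le hu (x := d + j + k) (a := d + i) (k := k) hj hi.le
    (fun y => D2 u y (d + j + k)) (fun _ _ => Or.inr (Or.inr rfl))
  obtain ⟨p4, q4⟩ := row_le hu (x := d + j) (a := d + i) (k := k) (by omega) hi.le
    (fun y => D2 u y (d + j)) (fun _ _ => Or.inr (Or.inr rfl))
  have r1 : |(conj om * Y).re| ≤ LS n u (d + j + k) + LS n u (d + j) := by
    rw [h1]; exact abs_sub_le' p1 p2 q1 q2
  have r3 : |(∑ t ∈ Finset.range k, D2 u (d + i + t) (d + j + k) -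
      ∑ t ∈ Finset.range k, D2 u (d + i + t) (d + j))| ≤ LS n u (d + j + k) + LS n u (d + j) :=
    abs_sub_le' p3 p4 q3 q4
  have r2 : |(conj (om - 1) * Y).re| ≤ 2 * ((LS n u (d + j + k) + LS n u (d + j)) +
      (LS n u (d + i + k) + LS n u (d + i))) + (LS n u (d + j + k) + LS n u (d + j)) := by
    rw [h2]
    exact (abs_add_le _ _).trans (add_le_add (XX_le' hu hi hj) r3)
  linarith

end

theorem affine : S_affine := by
  refine ⟨36, by norm_num, ?_⟩
  intro n R d k u hk hR hn hu
  set S := ∑ x ∈ Finset.range (R + 1), (LS n u (d + x) + LS n u (d + k + x)) with hS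
  have hterm : ∀ x ≤ R, 0 ≤ LS n u (d + x) + LS n u (d + k + x) := fun x hx =>
    add_nonneg (LS_nonneg hu (by omega)) (LS_nonneg hu (by omega))
  have hle : ∀ x ≤ R, LS n u (d + x + k) + LS n u (d + x) ≤ S := by
    intro x hx
    have := Finset.single_le_sum (f := fun x => LS n u (d + x) + LS n u (d + k + x))
      (s := Finset.range (R + 1)) (fun y hy => hterm y (by simpa [Nat.lt_succ_iff] using hy))
      (Finset.mem_range.2 (Nat.lt_succ_of_le hx))
    rw [show d + x + k = d + k + x by ring]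
    linarith
  have hS0 : 0 ≤ S := Finset.sum_nonneg fun y hy => hterm y (by simpa [Nat.lt_succ_iff] using hy)
  have hkk : (0 : ℝ) < k := by exact_mod_cast hk
  have hnk : ‖((k : ℂ) ^ 2)⁻¹‖ = ((k : ℝ) ^ 2)⁻¹ := by simp
  have key := taylor (Um d k u) R (12 * S / k ^ 2) (by positivity) ?_ ?_ ?_
  · intro i j hi hj
    refine (key i j hi hj).trans (le_of_eq ?_)
    ring
  · intro i hi
    rw [pureI, norm_mul, hnk, inv_mul_eq_div]
    gcongr
    have h1 := pureI_le hu (d := d) (k := k) (i := i) (j := 0) (by omega) (by omega)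
    have h2 := hle i (by omega)
    have h3 := hle 0 (by omega)
    linarith
  · intro j hj
    rw [pureJ, norm_mul, hnk, inv_mul_eq_div]
    gcongr
    have h1 := pureJ_le hu (d := d) (k := k) (i := 0) (j := j) (by omega) (by omega)
    have h2 := hle j (by omega)
    have h3 := hle 0 (by omega)
    linarith
  · intro i j hi hj
    rw [mixed, norm_mul, hnk, inv_mul_eq_div]
    gcongr
    have h1 := XX_le hu (d := d) (k := k) (i := i) (j := j) (by omega) (by omega)
    have h2 := hle i (by omega)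
    have h3 := hle j (by omega)
    linarith

end Pool.Agent.H93.CP
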