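import Pool.Agent.H93.CP.Affine

/-!
# Project CP: the area of the average, sums of the line sums and of the blocks (`S_area`)
-/

set_option autoImplicit false

open Real Set MeasureTheory Metric Filter Topology
open scoped ENNReal Nat ComplexConjugate

namespace Pool.Agent.H93.CP

open Pool.Agent.H96.CP

/-! ## The average -/

lemma c1_re (d k : ℕ) (u : ℕ → ℕ → ℂ) : (Um d k u 1 0 - Um d k u 0 0).re =
    ((k : ℝ) ^ 2)⁻¹ * ∑ t₁ ∈ Finset.range k, ∑ t₂ ∈ Finset.range k, D0 u (d + t₁) (d + t₂) := by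
  unfold Um D0
  rw [← mul_sub, ← Finset.sum_sub_distrib]
  have : ((k : ℂ) ^ 2)⁻¹ = (((k : ℝ) ^ 2)⁻¹ : ℝ) := by push_cast; ring
  rw [this, Complex.re_ofReal_mul, Complex.re_sum]
  congr 1
  refine Finset.sum_congr rfl fun t _ => ?_
  rw [← Finset.sum_sub_distrib, Complex.re_sum]
  rfl

lemma c2_re (d k : ℕ) (u : ℕ → ℕ → ℂ) : (conj om * (Um d k u 0 1 - Um d k u 0 0)).re =
    ((k : ℝ) ^ 2)⁻¹ * ∑ t₁ ∈ Finset.range k, ∑ t₂ ∈ Finset.range k, D1 u (d + t₁) (d + t₂) := by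
  unfold Um D1
  rw [← mul_sub, ← Finset.sum_sub_distrib]
  have : ((k : ℂ) ^ 2)⁻¹ = (((k : ℝ) ^ 2)⁻¹ : ℝ) := by push_cast; ring
  rw [this, mul_left_comm, Complex.re_ofReal_mul, Finset.mul_sum, Complex.re_sum]
  congr 1
  refine Finset.sum_congr rfl fun t _ => ?_
  rw [← Finset.sum_sub_distrib, Finset.mul_sum, Complex.re_sum]
  rfl

lemma c3_re (d k : ℕ) (u : ℕ → ℕ → ℂ) :
    (conj (om - 1) * ((Um d k u 0 1 - Um d k u 0 0) - (Um d k u 1 0 - Um d k u 0 0))).re =
    ((k : ℝ) ^ 2)⁻¹ * ∑ t₁ ∈ Finset.range k, ∑ t₂ ∈ Finset.range k, D2 u (d + t₁) (d + t₂) := by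
  unfold Um D2
  rw [sub_sub_sub_cancel_right, ← mul_sub, ← Finset.sum_sub_distrib]
  have : ((k : ℂ) ^ 2)⁻¹ = (((k : ℝ) ^ 2)⁻¹ : ℝ) := by push_cast; ring
  rw [this, mul_left_comm, Complex.re_ofReal_mul, Finset.mul_sum, Complex.re_sum]
  congr 1
  refine Finset.sum_congr rfl fun t _ => ?_
  rw [← Finset.sum_sub_distrib, Finset.mul_sum, Complex.re_sum]
  rfl

/-- injective reparametrization of sums of nonnegative terms -/
lemma inj_le {ι κ : Type*} [DecidableEq κ] (s : Finset ι) (t : Finset κ) (ff : ι → κ) (g : κ → ℝ)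
    (hf : ∀ x ∈ s, ff x ∈ t) (hi : Set.InjOn ff s) (hg : ∀ y ∈ t, 0 ≤ g y) :
    ∑ x ∈ s, g (ff x) ≤ ∑ y ∈ t, g y := by
  rw [← Finset.sum_image (s := s) (g := ff) (f := g) hi]
  refine Finset.sum_le_sum_of_subset_of_nonneg ?_ fun y hy _ => hg y hy
  intro y hy
  obtain ⟨x, hx, rfl⟩ := Finset.mem_image.1 hy
  exact hf x hx

/-- sums over a rectangle inside of a rectangle -/
lemma shift_le (p q a b k l : ℕ) (g : ℕ → ℕ → ℝ) (hg : ∀ i j, i < p → j < q → 0 ≤ g i j)
    (ha : a + k ≤ p) (hb : b + l ≤ q) :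
    ∑ i ∈ Finset.range k, ∑ j ∈ Finset.range l, g (a + i) (b + j) ≤
      ∑ i ∈ Finset.range p, ∑ j ∈ Finset.range q, g i j := by
  rw [← Finset.sum_product', ← Finset.sum_product']
  refine inj_le (Finset.range k ×ˢ Finset.range l) (Finset.range p ×ˢ Finset.range q)
    (fun x => (a + x.1, b + x.2)) (fun y => g y.1 y.2) ?_ ?_ ?_
  · intro x hx
    simp only [Finset.mem_product, Finset.mem_range] at hx ⊢
    omega
  · intro x _ y _ h
    simp only [Prod.mk.injEq, add_right_inj] at h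
    exact Prod.ext h.1 h.2
  · intro y hy
    simp only [Finset.mem_product, Finset.mem_range] at hy
    exact hg _ _ hy.1 hy.2

/-- sums over the translates of a block -/
lemma blocks_le (p q : ℕ) (T : Finset (ℕ × ℕ)) (k l : ℕ) (g : ℕ → ℕ → ℝ)
    (hg : ∀ i j, i < p → j < q → 0 ≤ g i j) (hT : ∀ t ∈ T, t.1 + k ≤ p ∧ t.2 + l ≤ q) :
    ∑ t ∈ T, ∑ i ∈ Finset.range k, ∑ j ∈ Finset.range l, g (t.1 + i) (t.2 + j) ≤
      (k : ℝ) * l * ∑ i ∈ Finset.range p, ∑ j ∈ Finset.range q, g i j := by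
  have h1 : ∀ i ∈ Finset.range k, ∀ j ∈ Finset.range l, ∑ t ∈ T, g (t.1 + i) (t.2 + j) ≤
      ∑ i ∈ Finset.range p, ∑ j ∈ Finset.range q, g i j := by
    intro i hi j hj
    rw [← Finset.sum_product']
    refine inj_le T (Finset.range p ×ˢ Finset.range q)
      (fun x => (x.1 + i, x.2 + j)) (fun y => g y.1 y.2) ?_ ?_ ?_
    · intro x hx
      have := hT x hx
      simp only [Finset.mem_product, Finset.mem_range] at hi hj ⊢
      omega
    · intro x _ y _ h
      simp only [Prod.mk.injEq, add_left_inj] at h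
      exact Prod.ext h.1 h.2
    · intro y hy
      simp only [Finset.mem_product, Finset.mem_range] at hy
      exact hg _ _ hy.1 hy.2
  calc _ = ∑ i ∈ Finset.range k, ∑ j ∈ Finset.range l, ∑ t ∈ T, g (t.1 + i) (t.2 + j) := by
        rw [Finset.sum_comm]
        refine Finset.sum_congr rfl fun i _ => ?_
        rw [Finset.sum_comm]
    _ ≤ ∑ i ∈ Finset.range k, ∑ j ∈ Finset.range l,
          ∑ i ∈ Finset.range p, ∑ j ∈ Finset.range q, g i j :=
        Finset.sum_le_sum fun i hi => Finset.sum_le_sum fun j hj => h1 i hi j hj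
    _ = _ := by
        simp only [Finset.sum_const, Finset.card_range, nsmul_eq_mul]
        ring

section

variable {n : ℕ} {u : ℕ → ℕ → ℂ} (hu : Pos n u)

include hu

lemma area1 {d k : ℕ} (hk : 1 ≤ k) (hd : d + k + 1 ≤ n) :
    PosA (Um d k u 1 0 - Um d k u 0 0) (Um d k u 0 1 - Um d k u 0 0) ∧
    (k : ℝ) ^ 2 * ar (Um d k u 1 0 - Um d k u 0 0) (Um d k u 0 1 - Um d k u 0 0) ≤ A n u := by
  have hkk : (0 : ℝ) < k := by exact_mod_cast hk
  refine ⟨⟨?_, ?_, ?_⟩, ?_⟩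
  · rw [c1_re]
    exact mul_nonneg (by positivity) (Finset.sum_nonneg fun i hi => Finset.sum_nonneg fun j hj =>
      hu.1 _ _ (by simp at hi; omega) (by simp at hj; omega))
  · rw [c2_re]
    exact mul_nonneg (by positivity) (Finset.sum_nonneg fun i hi => Finset.sum_nonneg fun j hj =>
      hu.2.1 _ _ (by simp at hi; omega) (by simp at hj; omega))
  · rw [c3_re]
    exact mul_nonneg (by positivity) (Finset.sum_nonneg fun i hi => Finset.sum_nonneg fun j hj =>
      hu.2.2 _ _ (by simp at hi; omega) (by simp at hj; omega))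
  · unfold ar
    rw [c1_re, c2_re, c3_re, ← mul_add, ← mul_add, ← mul_assoc,
      mul_inv_cancel₀ (by positivity), one_mul]
    unfold A
    refine add_le_add (add_le_add ?_ ?_) ?_
    · exact shift_le n (n + 1) d d k k (D0 u) (fun i j hi hj => hu.1 i j hi (by omega)) (by omega)
        (by omega)
    · exact shift_le (n + 1) n d d k k (D1 u) (fun i j hi hj => hu.2.1 i j (by omega) hj) (by omega)
        (by omega)
    · exact shift_le n n d d k k (D2 u) (fun i j hi hj => hu.2.2 i j hi hj) (by omega)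
        (by omega)

omit hu in
lemma LS_sum : ∑ x ∈ Finset.range (n + 1), LS n u x = 2 * A n u := by
  have e0 : ∑ x ∈ Finset.range (n + 1), ∑ j ∈ Finset.range (n + 1), (if x < n then D0 u x j else 0) =
      ∑ i ∈ Finset.range n, ∑ j ∈ Finset.range (n + 1), D0 u i j := by
    rw [Finset.sum_range_succ]
    simp only [lt_irrefl, if_false, Finset.sum_const_zero, add_zero]
    refine Finset.sum_congr rfl fun i hi => Finset.sum_congr rfl fun j _ => ?_
    rw [if_pos (Finset.mem_range.1 hi)]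
  have e1 : ∑ x ∈ Finset.range (n + 1), ∑ j ∈ Finset.range (n + 1), (if j < n then D1 u x j else 0) =
      ∑ i ∈ Finset.range (n + 1), ∑ j ∈ Finset.range n, D1 u i j := by
    refine Finset.sum_congr rfl fun i _ => ?_
    rw [Finset.sum_range_succ]
    simp only [lt_irrefl, if_false, add_zero]
    refine Finset.sum_congr rfl fun j hj => ?_
    rw [if_pos (Finset.mem_range.1 hj)]
  have e2 : ∑ x ∈ Finset.range (n + 1), ∑ j ∈ Finset.range (n + 1),
      (if x < n ∧ j < n then D2 u x j else 0) = ∑ i ∈ Finset.range n, ∑ j ∈ Finset.range n, D2 u i j := by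
    rw [Finset.sum_range_succ]
    simp only [lt_irrefl, false_and, if_false, Finset.sum_const_zero, add_zero]
    refine Finset.sum_congr rfl fun i hi => ?_
    rw [Finset.sum_range_succ]
    simp only [lt_irrefl, and_false, if_false, add_zero]
    refine Finset.sum_congr rfl fun j hj => ?_
    rw [if_pos ⟨Finset.mem_range.1 hi, Finset.mem_range.1 hj⟩]
  have f1 : ∑ x ∈ Finset.range (n + 1), ∑ j ∈ Finset.range (n + 1),
      ((if x < n then D0 u x j else 0) + (if j < n then D1 u x j else 0) +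
    (if x < n ∧ j < n then D2 u x j else 0)) = A n u := by
    simp only [Finset.sum_add_distrib]
    rw [e0, e1, e2]
    rfl
  unfold LS
  rw [Finset.sum_add_distrib, f1, Finset.sum_comm, f1]
  ring

lemma area3 {m : ℕ} (T : Finset (ℕ × ℕ))
    (hT : ∀ t ∈ T, t.1 + (m + 1) ≤ n ∧ t.2 + (m + 1) ≤ n) :
    ∑ t ∈ T, A (m + 1) (sh u t) ≤ 4 * (m + 1) ^ 2 * A n u := by
  have h0 := blocks_le n (n + 1) T (m + 1) (m + 1 + 1) (D0 u)
    (fun i j hi hj => hu.1 i j hi (by omega)) (fun t ht => by have := hT t ht; omega)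
  have h1 := blocks_le (n + 1) n T (m + 1 + 1) (m + 1) (D1 u)
    (fun i j hi hj => hu.2.1 i j (by omega) hj) (fun t ht => by have := hT t ht; omega)
  have h2 := blocks_le n n T (m + 1) (m + 1) (D2 u)
    (fun i j hi hj => hu.2.2 i j hi hj) (fun t ht => by have := hT t ht; omega)
  have p0 : 0 ≤ ∑ i ∈ Finset.range n, ∑ j ∈ Finset.range (n + 1), D0 u i j :=
    Finset.sum_nonneg fun i hi => Finset.sum_nonneg fun j hj =>
      hu.1 _ _ (by simpa using hi) (by simpa [Nat.lt_succ_iff] using hj)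
  have p1 : 0 ≤ ∑ i ∈ Finset.range (n + 1), ∑ j ∈ Finset.range n, D1 u i j :=
    Finset.sum_nonneg fun i hi => Finset.sum_nonneg fun j hj =>
      hu.2.1 _ _ (by simpa [Nat.lt_succ_iff] using hi) (by simpa using hj)
  have p2 : 0 ≤ ∑ i ∈ Finset.range n, ∑ j ∈ Finset.range n, D2 u i j :=
    Finset.sum_nonneg fun i hi => Finset.sum_nonneg fun j hj =>
      hu.2.2 _ _ (by simpa using hi) (by simpa using hj)
  have e : ∑ t ∈ T, A (m + 1) (sh u t) =
      (∑ t ∈ T, ∑ i ∈ Finset.range (m + 1), ∑ j ∈ Finset.range (m + 1 + 1), D0 u (t.1 + i) (t.2 + j)) +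
      (∑ t ∈ T, ∑ i ∈ Finset.range (m + 1 + 1), ∑ j ∈ Finset.range (m + 1), D1 u (t.1 + i) (t.2 + j)) +
      (∑ t ∈ T, ∑ i ∈ Finset.range (m + 1), ∑ j ∈ Finset.range (m + 1), D2 u (t.1 + i) (t.2 + j)) := by
    rw [← Finset.sum_add_distrib, ← Finset.sum_add_distrib]
    rfl
  rw [e]
  have eA : A n u = ∑ i ∈ Finset.range n, ∑ j ∈ Finset.range (n + 1), D0 u i j +
    ∑ i ∈ Finset.range (n + 1), ∑ j ∈ Finset.range n, D1 u i j +
    ∑ i ∈ Finset.range n, ∑ j ∈ Finset.range n, D2 u i j := rfl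
  rw [eA]
  have hm : (0 : ℝ) ≤ m := Nat.cast_nonneg m
  have c0 : ((m + 1 : ℕ) : ℝ) * ((m + 1 + 1 : ℕ) : ℝ) ≤ 4 * (m + 1) ^ 2 := by push_cast; nlinarith
  have c1 : ((m + 1 + 1 : ℕ) : ℝ) * ((m + 1 : ℕ) : ℝ) ≤ 4 * (m + 1) ^ 2 := by push_cast; nlinarith
  have c2 : ((m + 1 : ℕ) : ℝ) * ((m + 1 : ℕ) : ℝ) ≤ 4 * (m + 1) ^ 2 := by push_cast; nlinarith
  have g0 := mul_le_mul_of_nonneg_right c0 p0
  have g1 := mul_le_mul_of_nonneg_right c1 p1
  have g2 := mul_le_mul_of_nonneg_right c2 p2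
  linarith

end

theorem area : S_area := by
  refine ⟨fun n d k u hk hd hu => area1 hu hk hd, fun n u hu => ⟨fun x hx => LS_nonneg hu hx, ?_⟩,
    fun n m u hu T hT => area3 hu T hT⟩
  rw [LS_sum]

end Pool.Agent.H93.CP
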