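import Pool.Agent.H96.CP.Stm3
import Pool.Agent.H31.CP.Base
import Pool.Agent.H61.CP.Mean
import Pool.Agent.H93.CP.Affine

/-!
# Project CP: tiling of the torus by blocks (`S_tile`)
-/

set_option autoImplicit false

open Real Set MeasureTheory Metric Filter Topology
open scoped ENNReal Nat ComplexConjugate

namespace Pool.Agent.H93.CP.Tile

open Pool.Agent.H96.CP

/-! ## Sites -/

/-- interior coordinates of the blocks of side `m+1` -/
def In (M m Q : ℕ) (z : ZMod M) : Prop := z.val % (m + 1) ≠ 0 ∧ z.val / (m + 1) < Q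

/-- interior sites of the blocks -/
def Int2 (M m Q : ℕ) (s : ZMod M × ZMod M) : Prop := In M m Q s.1 ∧ In M m Q s.2

/-- the site with coordinates `x, y` -/
def site (M : ℕ) (x y : ℕ) : ZMod M × ZMod M := ((x : ZMod M), (y : ZMod M))

section

variable {M m Q : ℕ}

lemma mod_eq {a i : ℕ} (hi : i < m) : (a * (m + 1) + (i + 1)) % (m + 1) = i + 1 := by
  rw [Nat.mul_comm a, Nat.mul_add_mod, Nat.mod_eq_of_lt (by omega)]

lemma div_eq {a i : ℕ} (hi : i < m) : (a * (m + 1) + (i + 1)) / (m + 1) = a := by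
  rw [Nat.mul_comm a, Nat.mul_add_div (by omega), Nat.div_eq_of_lt (by omega), add_zero]

lemma val_in (hQ : Q * (m + 1) ≤ M) {a i : ℕ} (ha : a < Q) (hi : i < m) :
    ((a * (m + 1) + (i + 1) : ℕ) : ZMod M).val = a * (m + 1) + (i + 1) := by
  apply ZMod.val_natCast_of_lt
  have : (a + 1) * (m + 1) ≤ Q * (m + 1) := Nat.mul_le_mul_right _ ha
  nlinarith

lemma in_of (hQ : Q * (m + 1) ≤ M) {a i : ℕ} (ha : a < Q) (hi : i < m) :
    In M m Q ((a * (m + 1) + (i + 1) : ℕ) : ZMod M) := by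
  unfold In
  rw [val_in hQ ha hi, mod_eq hi, div_eq hi]
  exact ⟨by omega, ha⟩

lemma exists_of_in [NeZero M] {z : ZMod M} (h : In M m Q z) :
    ∃ a < Q, ∃ i < m, z = ((a * (m + 1) + (i + 1) : ℕ) : ZMod M) := by
  obtain ⟨h1, h2⟩ := h
  have h3 : z.val % (m + 1) < m + 1 := Nat.mod_lt _ (by omega)
  refine ⟨z.val / (m + 1), h2, z.val % (m + 1) - 1, by omega, ?_⟩
  have : z.val / (m + 1) * (m + 1) + (z.val % (m + 1) - 1 + 1) = z.val := by
    have := Nat.div_add_mod z.val (m + 1)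
    rw [Nat.mul_comm (m + 1)] at this
    omega
  rw [this, ZMod.natCast_zmod_val]

lemma not_in (hQ : Q * (m + 1) ≤ M) {a : ℕ} (ha : a ≤ Q) :
    ¬ In M m Q ((a * (m + 1) : ℕ) : ZMod M) := by
  unfold In
  rw [ZMod.val_natCast]
  have h1 : a * (m + 1) ≤ M := (Nat.mul_le_mul_right _ ha).trans hQ
  rcases h1.lt_or_eq with h | h
  · rw [Nat.mod_eq_of_lt h]
    simp
  · rw [h]
    simp

lemma site_10 (x y : ℕ) : site M x y + (1, 0) = site M (x + 1) y := by
  simp [site]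

lemma site_01 (x y : ℕ) : site M x y + (0, 1) = site M x (y + 1) := by
  simp [site]

lemma not_int (hQ : Q * (m + 1) ≤ M) {a b x y : ℕ} (ha : a < Q) (hb : b < Q) (hx : x ≤ m + 1)
    (hy : y ≤ m + 1) (h : ¬((1 ≤ x ∧ x ≤ m) ∧ 1 ≤ y ∧ y ≤ m)) :
    ¬ Int2 M m Q (site M (a * (m + 1) + x) (b * (m + 1) + y)) := by
  rintro ⟨h1, h2⟩
  simp only [site] at h1 h2
  have hx' : x = 0 ∨ x = m + 1 ∨ y = 0 ∨ y = m + 1 := by omega
  rcases hx' with rfl | rfl | rfl | rfl
  · exact not_in hQ ha.le (by simpa using h1)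
  · refine not_in (m := m) hQ (a := a + 1) ha ?_
    rw [Nat.succ_mul]
    exact h1
  · exact not_in hQ hb.le (by simpa using h2)
  · refine not_in (m := m) hQ (a := b + 1) hb ?_
    rw [Nat.succ_mul]
    exact h2

variable [NeZero M]

lemma edge0 {s : ZMod M × ZMod M} (h : Int2 M m Q s ∨ Int2 M m Q (s + (1, 0))) :
    ∃ a < Q, ∃ b < Q, ∃ x y, x < m + 1 ∧ y ≤ m + 1 ∧
      s = site M (a * (m + 1) + x) (b * (m + 1) + y) := by
  rcases h with h | h
  · obtain ⟨a, ha, i, hi, e1⟩ := exists_of_in h.1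
    obtain ⟨b, hb, j, hj, e2⟩ := exists_of_in h.2
    exact ⟨a, ha, b, hb, i + 1, j + 1, by omega, by omega, Prod.ext e1 e2⟩
  · obtain ⟨a, ha, i, hi, e1⟩ := exists_of_in h.1
    obtain ⟨b, hb, j, hj, e2⟩ := exists_of_in h.2
    refine ⟨a, ha, b, hb, i, j + 1, by omega, by omega, Prod.ext ?_ ?_⟩
    · have : s.1 + 1 = ((a * (m + 1) + i : ℕ) : ZMod M) + 1 := by
        rw [Prod.fst_add] at e1
        rw [e1]; push_cast; ring
      exact add_right_cancel this
    · rw [Prod.snd_add] at e2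
      simpa [site] using e2

lemma edge1 {s : ZMod M × ZMod M} (h : Int2 M m Q s ∨ Int2 M m Q (s + (0, 1))) :
    ∃ a < Q, ∃ b < Q, ∃ x y, x ≤ m + 1 ∧ y < m + 1 ∧
      s = site M (a * (m + 1) + x) (b * (m + 1) + y) := by
  rcases h with h | h
  · obtain ⟨a, ha, i, hi, e1⟩ := exists_of_in h.1
    obtain ⟨b, hb, j, hj, e2⟩ := exists_of_in h.2
    exact ⟨a, ha, b, hb, i + 1, j + 1, by omega, by omega, Prod.ext e1 e2⟩
  · obtain ⟨a, ha, i, hi, e1⟩ := exists_of_in h.1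
    obtain ⟨b, hb, j, hj, e2⟩ := exists_of_in h.2
    refine ⟨a, ha, b, hb, i + 1, j, by omega, by omega, Prod.ext ?_ ?_⟩
    · rw [Prod.fst_add] at e1
      simpa [site] using e1
    · have : s.2 + 1 = ((b * (m + 1) + j : ℕ) : ZMod M) + 1 := by
        rw [Prod.snd_add] at e2
        rw [e2]; push_cast; ring
      exact add_right_cancel this

lemma edge2 {s : ZMod M × ZMod M} (h : Int2 M m Q (s + (1, 0)) ∨ Int2 M m Q (s + (0, 1))) :
    ∃ a < Q, ∃ b < Q, ∃ x y, x < m + 1 ∧ y < m + 1 ∧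
      s = site M (a * (m + 1) + x) (b * (m + 1) + y) := by
  rcases h with h | h
  · obtain ⟨a, ha, i, hi, e1⟩ := exists_of_in h.1
    obtain ⟨b, hb, j, hj, e2⟩ := exists_of_in h.2
    refine ⟨a, ha, b, hb, i, j + 1, by omega, by omega, Prod.ext ?_ ?_⟩
    · have : s.1 + 1 = ((a * (m + 1) + i : ℕ) : ZMod M) + 1 := by
        rw [Prod.fst_add] at e1
        rw [e1]; push_cast; ring
      exact add_right_cancel this
    · rw [Prod.snd_add] at e2
      simpa [site] using e2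
  · obtain ⟨a, ha, i, hi, e1⟩ := exists_of_in h.1
    obtain ⟨b, hb, j, hj, e2⟩ := exists_of_in h.2
    refine ⟨a, ha, b, hb, i + 1, j, by omega, by omega, Prod.ext ?_ ?_⟩
    · rw [Prod.fst_add] at e1
      simpa [site] using e1
    · have : s.2 + 1 = ((b * (m + 1) + j : ℕ) : ZMod M) + 1 := by
        rw [Prod.snd_add] at e2
        rw [e2]; push_cast; ring
      exact add_right_cancel this

end

/-! ## Geometry -/

lemma norm_om' : ‖(conj om : ℂ)‖ = 1 := by
  rw [Complex.norm_conj]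
  have : ‖om‖ ^ 2 = 1 := by
    rw [← Complex.normSq_eq_norm_sq, Complex.normSq_apply]
    simp [om]
    have := Real.mul_self_sqrt (show (0:ℝ) ≤ 3 by norm_num)
    nlinarith
  nlinarith [norm_nonneg om]

lemma re_ge (c z z' : ℂ) (hc : ‖c‖ = 1) {r : ℝ} (h : ‖z - z'‖ ≤ r) :
    (c * z').re - r ≤ (c * z).re := by
  have h1 : |(c * (z - z')).re| ≤ r := by
    refine (Complex.abs_re_le_norm _).trans ?_
    rw [norm_mul, hc, one_mul]; exact h
  rw [mul_sub, Complex.sub_re] at h1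
  have := (abs_le.1 h1).1
  linarith

section

variable {M m Q : ℕ} [NeZero M] (hQ : Q * (m + 1) ≤ M) {c₁ c₂ : ℂ} (hP : PosA c₁ c₂) {η : ℝ}
  (hη : 0 < η) {u : ZMod M × ZMod M → ℂ} (h1 : ∀ s, ¬ Int2 M m Q s → ‖u s‖ ≤ η / 4)
  {w : Fin Q × Fin Q → Fin m × Fin m → ℂ}
  (h2 : ∀ (p : Fin Q × Fin Q) (q : Fin m × Fin m),
    u (site M (p.1 * (m + 1) + (q.1 + 1)) (p.2 * (m + 1) + (q.2 + 1))) = w p q)
  (hK : ∀ p, Pos (m + 1) (glue m (aff c₁ c₂) (fun q => w p q + aff c₁ c₂ (q.1 + 1) (q.2 + 1))))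

include hQ hη h1 h2 in
omit [NeZero M] in
lemma approx (p : Fin Q × Fin Q) {x y : ℕ} (hx : x ≤ m + 1) (hy : y ≤ m + 1) :
    ‖u (site M (p.1 * (m + 1) + x) (p.2 * (m + 1) + y)) -
      (glue m (aff c₁ c₂) (fun q => w p q + aff c₁ c₂ (q.1 + 1) (q.2 + 1)) x y -
        aff c₁ c₂ x y)‖ ≤ η / 4 := by
  by_cases h : (1 ≤ x ∧ x ≤ m) ∧ 1 ≤ y ∧ y ≤ m
  · obtain ⟨⟨hx1, hx2⟩, hy1, hy2⟩ := h
    obtain ⟨i, rfl⟩ : ∃ i, x = i + 1 := ⟨x - 1, by omega⟩
    obtain ⟨j, rfl⟩ : ∃ j, y = j + 1 := ⟨y - 1, by omega⟩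
    have := h2 p (⟨i, by omega⟩, ⟨j, by omega⟩)
    simp only at this
    rw [this]
    have e : glue m (aff c₁ c₂) (fun q => w p q + aff c₁ c₂ (q.1 + 1) (q.2 + 1)) (i + 1) (j + 1) =
        w p (⟨i, by omega⟩, ⟨j, by omega⟩) + aff c₁ c₂ (i + 1) (j + 1) := by
      unfold glue
      rw [dif_pos ⟨⟨hx1, hx2⟩, hy1, hy2⟩]
      simp only [Nat.add_sub_cancel]
    rw [e]
    simp only [add_sub_cancel_right, sub_self, norm_zero]
    positivity
  · have e : glue m (aff c₁ c₂) (fun q => w p q + aff c₁ c₂ (q.1 + 1) (q.2 + 1)) x y =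
        aff c₁ c₂ x y := by
      unfold glue
      rw [dif_neg h]
    rw [e, sub_self, sub_zero]
    exact h1 _ (not_int hQ p.1.2 p.2.2 hx hy h)

include hQ hP hη h1 h2 hK in
lemma geo (s : ZMod M × ZMod M) : -(c₁.re + η) ≤ E0 u s ∧ -((conj om * c₂).re + η) ≤ E1 u s ∧
    -((conj (om - 1) * (c₂ - c₁)).re + η) ≤ E2 u s := by
  obtain ⟨p1, p2, p3⟩ := hP
  refine ⟨?_, ?_, ?_⟩
  · unfold E0
    by_cases h : Int2 M m Q s ∨ Int2 M m Q (s + (1, 0))
    · obtain ⟨a, ha, b, hb, x, y, hx, hy, rfl⟩ := edge0 h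
      have k1 := approx hQ (c₁ := c₁) (c₂ := c₂) hη h1 h2 (⟨a, ha⟩, ⟨b, hb⟩) (x := x) (y := y)
        (by omega) hy
      have k2 := approx hQ (c₁ := c₁) (c₂ := c₂) hη h1 h2 (⟨a, ha⟩, ⟨b, hb⟩) (x := x + 1) (y := y)
        (by omega) hy
      have k3 := (hK (⟨a, ha⟩, ⟨b, hb⟩)).1 x y hx hy
      rw [site_10]
      simp only at k1 k2
      rw [show a * (m + 1) + x + 1 = a * (m + 1) + (x + 1) by ring]
      set W := glue m (aff c₁ c₂) (fun q => w (⟨a, ha⟩, ⟨b, hb⟩) q + aff c₁ c₂ (q.1 + 1) (q.2 + 1))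
      have k4 : ‖(u (site M (a * (m + 1) + (x + 1)) (b * (m + 1) + y)) -
          u (site M (a * (m + 1) + x) (b * (m + 1) + y))) -
          ((W (x + 1) y - W x y) - c₁)‖ ≤ η / 2 := by
        have e : (u (site M (a * (m + 1) + (x + 1)) (b * (m + 1) + y)) -
          u (site M (a * (m + 1) + x) (b * (m + 1) + y))) -
          ((W (x + 1) y - W x y) - c₁) =
          (u (site M (a * (m + 1) + (x + 1)) (b * (m + 1) + y)) -
            (W (x + 1) y - aff c₁ c₂ (x + 1) y)) -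
          (u (site M (a * (m + 1) + x) (b * (m + 1) + y)) - (W x y - aff c₁ c₂ x y)) := by
          unfold aff; push_cast; ring
        rw [e]
        refine (norm_sub_le _ _).trans ?_
        linarith
      have k5 := re_ge 1 _ _ (by simp) k4
      simp only [one_mul] at k5
      unfold D0 at k3
      rw [Complex.sub_re (W (x + 1) y - W x y)] at k5
      linarith
    · push Not at h
      have k1 := h1 _ h.1
      have k2 := h1 _ h.2
      have k3 := (abs_le.1 (Complex.abs_re_le_norm (u s))).2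
      have k4 := (abs_le.1 (Complex.abs_re_le_norm (u (s + (1, 0))))).1
      rw [Complex.sub_re]
      linarith
  · unfold E1
    by_cases h : Int2 M m Q s ∨ Int2 M m Q (s + (0, 1))
    · obtain ⟨a, ha, b, hb, x, y, hx, hy, rfl⟩ := edge1 h
      have k1 := approx hQ (c₁ := c₁) (c₂ := c₂) hη h1 h2 (⟨a, ha⟩, ⟨b, hb⟩) (x := x) (y := y)
        hx (by omega)
      have k2 := approx hQ (c₁ := c₁) (c₂ := c₂) hη h1 h2 (⟨a, ha⟩, ⟨b, hb⟩) (x := x) (y := y + 1)
        hx (by omega)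
      have k3 := (hK (⟨a, ha⟩, ⟨b, hb⟩)).2.1 x y hx hy
      rw [site_01]
      simp only at k1 k2
      rw [show b * (m + 1) + y + 1 = b * (m + 1) + (y + 1) by ring]
      set W := glue m (aff c₁ c₂) (fun q => w (⟨a, ha⟩, ⟨b, hb⟩) q + aff c₁ c₂ (q.1 + 1) (q.2 + 1))
      have k4 : ‖(u (site M (a * (m + 1) + x) (b * (m + 1) + (y + 1))) -
          u (site M (a * (m + 1) + x) (b * (m + 1) + y))) -
          ((W x (y + 1) - W x y) - c₂)‖ ≤ η / 2 := by
        have e : (u (site M (a * (m + 1) + x) (b * (m + 1) + (y + 1))) -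
          u (site M (a * (m + 1) + x) (b * (m + 1) + y))) -
          ((W x (y + 1) - W x y) - c₂) =
          (u (site M (a * (m + 1) + x) (b * (m + 1) + (y + 1))) -
            (W x (y + 1) - aff c₁ c₂ x (y + 1))) -
          (u (site M (a * (m + 1) + x) (b * (m + 1) + y)) - (W x y - aff c₁ c₂ x y)) := by
          unfold aff; push_cast; ring
        rw [e]
        refine (norm_sub_le _ _).trans ?_
        linarith
      have k5 := re_ge (conj om) _ _ norm_om' k4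
      unfold D1 at k3
      rw [mul_sub (conj om) (W x (y + 1) - W x y), Complex.sub_re] at k5
      linarith
    · push Not at h
      have k1 := h1 _ h.1
      have k2 := h1 _ h.2
      have k3 := re_ge (conj om) (u (s + (0, 1)) - u s) 0 norm_om' (r := η / 2) (by
        rw [sub_zero]; refine (norm_sub_le _ _).trans ?_; linarith)
      simp only [mul_zero, Complex.zero_re] at k3
      linarith
  · unfold E2
    by_cases h : Int2 M m Q (s + (1, 0)) ∨ Int2 M m Q (s + (0, 1))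
    · obtain ⟨a, ha, b, hb, x, y, hx, hy, rfl⟩ := edge2 h
      have k1 := approx hQ (c₁ := c₁) (c₂ := c₂) hη h1 h2 (⟨a, ha⟩, ⟨b, hb⟩) (x := x + 1) (y := y)
        hx (by omega)
      have k2 := approx hQ (c₁ := c₁) (c₂ := c₂) hη h1 h2 (⟨a, ha⟩, ⟨b, hb⟩) (x := x) (y := y + 1)
        (by omega) (by omega)
      have k3 := (hK (⟨a, ha⟩, ⟨b, hb⟩)).2.2 x y hx hy
      rw [site_01, site_10]
      simp only at k1 k2
      rw [show b * (m + 1) + y + 1 = b * (m + 1) + (y + 1) by ring,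
        show a * (m + 1) + x + 1 = a * (m + 1) + (x + 1) by ring]
      set W := glue m (aff c₁ c₂) (fun q => w (⟨a, ha⟩, ⟨b, hb⟩) q + aff c₁ c₂ (q.1 + 1) (q.2 + 1))
      have k4 : ‖(u (site M (a * (m + 1) + x) (b * (m + 1) + (y + 1))) -
          u (site M (a * (m + 1) + (x + 1)) (b * (m + 1) + y))) -
          ((W x (y + 1) - W (x + 1) y) - (c₂ - c₁))‖ ≤ η / 2 := by
        have e : (u (site M (a * (m + 1) + x) (b * (m + 1) + (y + 1))) -
          u (site M (a * (m + 1) + (x + 1)) (b * (m + 1) + y))) -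
          ((W x (y + 1) - W (x + 1) y) - (c₂ - c₁)) =
          (u (site M (a * (m + 1) + x) (b * (m + 1) + (y + 1))) -
            (W x (y + 1) - aff c₁ c₂ x (y + 1))) -
          (u (site M (a * (m + 1) + (x + 1)) (b * (m + 1) + y)) -
            (W (x + 1) y - aff c₁ c₂ (x + 1) y)) := by
          unfold aff; push_cast; ring
        rw [e]
        refine (norm_sub_le _ _).trans ?_
        linarith
      have k5 := re_ge (conj (om - 1)) _ _ norm_om2 k4
      unfold D2 at k3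
      rw [mul_sub (conj (om - 1)) (W x (y + 1) - W (x + 1) y), Complex.sub_re] at k5
      linarith
    · push Not at h
      have k1 := h1 _ h.1
      have k2 := h1 _ h.2
      have k3 := re_ge (conj (om - 1)) (u (s + (0, 1)) - u (s + (1, 0))) 0 norm_om2 (r := η / 2) (by
        rw [sub_zero]; refine (norm_sub_le _ _).trans ?_; linarith)
      simp only [mul_zero, Complex.zero_re] at k3
      linarith

end

/-! ## Coordinates -/

section

variable (M m Q : ℕ) [NeZero M]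

/-- the sites other than `0` which are not in the interior of a block -/
abbrev Gs : Type := {s : {q : ZMod M × ZMod M // q ≠ 0} // ¬ Int2 M m Q s.1}

variable {M m Q} (hQ : Q * (m + 1) ≤ M)

include hQ in
omit [NeZero M] in
lemma int_site (p : (Fin Q × Fin Q) × (Fin m × Fin m)) :
    Int2 M m Q (site M (p.1.1 * (m + 1) + (p.2.1 + 1)) (p.1.2 * (m + 1) + (p.2.2 + 1))) :=
  ⟨in_of hQ p.1.1.2 p.2.1.2, in_of hQ p.1.2.2 p.2.2.2⟩

omit [NeZero M] in
lemma ne_of_int {s : ZMod M × ZMod M} (h : Int2 M m Q s) : s ≠ 0 := by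
  rintro rfl
  exact h.1.1 (by simp)

/-- the sites in the interiors of the blocks -/
def blk (p : (Fin Q × Fin Q) × (Fin m × Fin m)) :
    {s : {q : ZMod M × ZMod M // q ≠ 0} // Int2 M m Q s.1} :=
  ⟨⟨site M (p.1.1 * (m + 1) + (p.2.1 + 1)) (p.1.2 * (m + 1) + (p.2.2 + 1)),
    ne_of_int (int_site hQ p)⟩, int_site hQ p⟩

lemma blk_bij : Function.Bijective (blk (M := M) (m := m) (Q := Q) hQ) := by
  constructor
  · intro p p' h
    have h' : site M (p.1.1 * (m + 1) + (p.2.1 + 1)) (p.1.2 * (m + 1) + (p.2.2 + 1)) =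
      site M (p'.1.1 * (m + 1) + (p'.2.1 + 1)) (p'.1.2 * (m + 1) + (p'.2.2 + 1)) :=
      congrArg (fun s => s.1.1) h
    have e1 := congrArg (fun s => (Prod.fst s).val) h'
    have e2 := congrArg (fun s => (Prod.snd s).val) h'
    simp only [site] at e1 e2
    rw [val_in hQ p.1.1.2 p.2.1.2, val_in hQ p'.1.1.2 p'.2.1.2] at e1
    rw [val_in hQ p.1.2.2 p.2.2.2, val_in hQ p'.1.2.2 p'.2.2.2] at e2
    have f1 := congrArg (· % (m + 1)) e1
    have f2 := congrArg (· / (m + 1)) e1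
    have f3 := congrArg (· % (m + 1)) e2
    have f4 := congrArg (· / (m + 1)) e2
    simp only [mod_eq p.2.1.2, mod_eq p'.2.1.2, mod_eq p.2.2.2, mod_eq p'.2.2.2,
      div_eq p.2.1.2, div_eq p'.2.1.2, div_eq p.2.2.2, div_eq p'.2.2.2] at f1 f2 f3 f4
    obtain ⟨⟨a, b⟩, ⟨i, j⟩⟩ := p
    obtain ⟨⟨a', b'⟩, ⟨i', j'⟩⟩ := p'
    simp only at f1 f2 f3 f4
    have g1 : i = i' := Fin.ext (by omega)
    have g2 : a = a' := Fin.ext f2
    have g3 : j = j' := Fin.ext (by omega)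
    have g4 : b = b' := Fin.ext f4
    subst g1 g2 g3 g4
    rfl
  · rintro ⟨⟨s, hs⟩, h⟩
    obtain ⟨a, ha, i, hi, e1⟩ := exists_of_in h.1
    obtain ⟨b, hb, j, hj, e2⟩ := exists_of_in h.2
    refine ⟨((⟨a, ha⟩, ⟨b, hb⟩), (⟨i, hi⟩, ⟨j, hj⟩)), ?_⟩
    apply Subtype.ext
    apply Subtype.ext
    exact Prod.ext e1.symm e2.symm

open Classical in
/-- all sites other than `0` -/
noncomputable def eq : ((Fin Q × Fin Q) × (Fin m × Fin m)) ⊕ Gs M m Q ≃
    {q : ZMod M × ZMod M // q ≠ 0} :=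
  (Equiv.sumCongr (Equiv.ofBijective (blk hQ) (blk_bij hQ)) (Equiv.refl _)).trans
    (Equiv.sumCompl fun s : {q : ZMod M × ZMod M // q ≠ 0} => Int2 M m Q s.1)

lemma eq_inl (p : (Fin Q × Fin Q) × (Fin m × Fin m)) : eq hQ (Sum.inl p) = (blk hQ p).1 := rfl

lemma eq_inr (g : Gs M m Q) : eq hQ (Sum.inr g) = g.1 := rfl

lemma comb_inl (g : Gs M m Q → ℂ) (w : Fin Q × Fin Q → Fin m × Fin m → ℂ)
    (p : Fin Q × Fin Q) (q : Fin m × Fin m) :
    pin (comb (eq hQ) g w) (site M (p.1 * (m + 1) + (q.1 + 1)) (p.2 * (m + 1) + (q.2 + 1))) =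
      w p q := by
  unfold pin
  rw [dif_neg (ne_of_int (int_site hQ (p, q)))]
  have : (⟨site M (p.1 * (m + 1) + (q.1 + 1)) (p.2 * (m + 1) + (q.2 + 1)),
    ne_of_int (int_site hQ (p, q))⟩ : {q : ZMod M × ZMod M // q ≠ 0}) = eq hQ (Sum.inl (p, q)) := rfl
  rw [this]
  unfold comb
  rw [Equiv.symm_apply_apply]
  rfl

lemma comb_inr (g : Gs M m Q → ℂ) (w : Fin Q × Fin Q → Fin m × Fin m → ℂ) {r : ℝ} (hr : 0 ≤ r)
    (hg : ∀ i, ‖g i‖ ≤ r) (s : ZMod M × ZMod M) (hs : ¬ Int2 M m Q s) :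
    ‖pin (comb (eq hQ) g w) s‖ ≤ r := by
  unfold pin
  by_cases h : s = 0
  · rw [dif_pos h, norm_zero]; exact hr
  · rw [dif_neg h]
    have : (⟨s, h⟩ : {q : ZMod M × ZMod M // q ≠ 0}) = eq hQ (Sum.inr ⟨⟨s, h⟩, hs⟩) := rfl
    rw [this]
    unfold comb
    rw [Equiv.symm_apply_apply]
    exact hg _

end

/-! ## Measure -/

lemma isClosed_PT (M : ℕ) (d₀ d₁ d₂ : ℝ) : IsClosed (PT M d₀ d₁ d₂) := by
  have hc : ∀ q : ZMod M × ZMod M, Continuous fun w : {q : ZMod M × ZMod M // q ≠ 0} → ℂ =>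
      pin w q := by
    intro q
    unfold pin
    by_cases h : q = 0
    · simp only [dif_pos h]; exact continuous_const
    · simp only [dif_neg h]; exact continuous_apply _
  have h : PT M d₀ d₁ d₂ = ⋂ q, ({w | -d₀ ≤ E0 (pin w) q} ∩ ({w | -d₁ ≤ E1 (pin w) q} ∩
      {w | -d₂ ≤ E2 (pin w) q})) := by
    ext w
    simp only [PT, mem_ofPred_eq, mem_inter_iff, mem_iInter]
  rw [h]
  refine isClosed_iInter fun q => ?_
  refine IsClosed.inter ?_ (IsClosed.inter ?_ ?_)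
  · refine isClosed_le continuous_const ?_
    exact Complex.continuous_re.comp ((hc _).sub (hc _))
  · refine isClosed_le continuous_const ?_
    exact Complex.continuous_re.comp (continuous_const.mul ((hc _).sub (hc _)))
  · refine isClosed_le continuous_const ?_
    exact Complex.continuous_re.comp (continuous_const.mul ((hc _).sub (hc _)))

lemma core {M m Q : ℕ} [NeZero M] (hQ : Q * (m + 1) ≤ M) {c₁ c₂ : ℂ} (hP : PosA c₁ c₂) {η : ℝ}
    (hη : 0 < η) (hη1 : η ≤ 1) :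
    ENNReal.ofReal (η ^ 2 / 16) ^ (M ^ 2 - Q ^ 2 * m ^ 2) * vb m (aff c₁ c₂) ^ (Q ^ 2) ≤
      vt M (c₁.re + η) ((conj om * c₂).re + η) ((conj (om - 1) * (c₂ - c₁)).re + η) := by
  classical
  set d₀ := c₁.re + η
  set d₁ := (conj om * c₂).re + η
  set d₂ := (conj (om - 1) * (c₂ - c₁)).re + η
  set K : Set (Fin m × Fin m → ℂ) :=
    {w | (fun q => w q + aff c₁ c₂ (q.1 + 1) (q.2 + 1)) ∈ Kb m (aff c₁ c₂)} with hK
  have hKv : volume K = vb m (aff c₁ c₂) := by
    have := (measurePreserving_add_right (volume : Measure (Fin m × Fin m → ℂ))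
      (fun q : Fin m × Fin m => aff c₁ c₂ (q.1 + 1) (q.2 + 1))).measure_preimage
      (Pool.Agent.H61.CP.isClosed_Kb m (aff c₁ c₂)).measurableSet.nullMeasurableSet
    exact this
  have hKm : MeasurableSet K := by
    have h1 : Measurable fun w : Fin m × Fin m → ℂ =>
        (fun q : Fin m × Fin m => w q + aff c₁ c₂ (q.1 + 1) (q.2 + 1)) := by fun_prop
    exact h1 (Pool.Agent.H61.CP.isClosed_Kb m (aff c₁ c₂)).measurableSet
  set B : Set (Gs M m Q → ℂ) := Set.univ.pi fun _ => closedBall (0 : ℂ) (η / 4) with hB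
  have hBm : MeasurableSet B := MeasurableSet.univ_pi fun _ => measurableSet_closedBall
  have hPm : MeasurableSet (PT M d₀ d₁ d₂) := (isClosed_PT M d₀ d₁ d₂).measurableSet
  have hpt : ∀ (g : Gs M m Q → ℂ) (w : Fin Q × Fin Q → Fin m × Fin m → ℂ),
      B.indicator 1 g * ∏ a, K.indicator (1 : (Fin m × Fin m → ℂ) → ℝ≥0∞) (w a) ≤
        (PT M d₀ d₁ d₂).indicator 1 (comb (eq hQ) g w) := by
    intro g w
    by_cases hg : g ∈ B
    · by_cases hw : ∀ a, w a ∈ K
      · have hmem : comb (eq hQ) g w ∈ PT M d₀ d₁ d₂ := by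
          intro s
          refine geo hQ hP hη (u := pin (comb (eq hQ) g w)) (w := w) ?_ ?_ ?_ s
          · refine comb_inr hQ g w (by positivity) ?_
            intro i
            have := hg i (mem_univ _)
            simpa using this
          · intro p q
            exact comb_inl hQ g w p q
          · intro p
            exact hw p
        rw [indicator_of_mem hmem, indicator_of_mem hg, Finset.prod_congr rfl fun a _ =>
          indicator_of_mem (hw a) _]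
        simp
      · push Not at hw
        obtain ⟨a, ha⟩ := hw
        rw [Finset.prod_eq_zero (Finset.mem_univ a) (indicator_of_notMem ha _)]
        simp
    · rw [indicator_of_notMem hg, zero_mul]
      exact bot_le
  have hcomb := Pool.Agent.H31.CP.comb_thm (Fin Q × Fin Q) (Fin m × Fin m) (Gs M m Q)
    {q : ZMod M × ZMod M // q ≠ 0} (eq hQ) ((PT M d₀ d₁ d₂).indicator 1)
    (measurable_one.indicator hPm)
  have hprod := Pool.Agent.H31.CP.prod_thm (Fin Q × Fin Q) (Fin m × Fin m)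
    (fun _ => K.indicator 1) (fun _ => measurable_one.indicator hKm)
  have hcard : Fintype.card (Gs M m Q) ≤ M ^ 2 - Q ^ 2 * m ^ 2 := by
    have h1 := Fintype.card_congr (eq (M := M) (m := m) (Q := Q) hQ)
    have h2 : Fintype.card {q : ZMod M × ZMod M // q ≠ 0} ≤ M ^ 2 := by
      refine (Fintype.card_subtype_le _).trans ?_
      rw [Fintype.card_prod, ZMod.card]
      nlinarith
    rw [Fintype.card_sum, Fintype.card_prod, Fintype.card_prod, Fintype.card_prod,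
      Fintype.card_fin, Fintype.card_fin] at h1
    have h3 : Q ^ 2 * m ^ 2 = Q * Q * (m * m) := by ring
    omega
  have hBv : ENNReal.ofReal (η ^ 2 / 16) ^ (M ^ 2 - Q ^ 2 * m ^ 2) ≤ volume B := by
    rw [hB, volume_pi_pi]
    simp only [Complex.volume_closedBall, Finset.prod_const, Finset.card_univ]
    refine le_trans ?_ (pow_le_pow_left' (a := ENNReal.ofReal (η ^ 2 / 16)) ?_ _)
    · refine pow_le_pow_right_of_le_one' ?_ hcard
      rw [← ENNReal.ofReal_one]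
      exact ENNReal.ofReal_le_ofReal (by nlinarith)
    · have e : ENNReal.ofReal (η / 4) ^ 2 = ENNReal.ofReal (η ^ 2 / 16) := by
        rw [← ENNReal.ofReal_pow (by positivity)]
        congr 1; ring
      rw [e]
      calc ENNReal.ofReal (η ^ 2 / 16) = ENNReal.ofReal (η ^ 2 / 16) * 1 := (mul_one _).symm
        _ ≤ _ := by
          gcongr
          have : (1 : NNReal) ≤ NNReal.pi := by
            rw [← NNReal.coe_le_coe, NNReal.coe_real_pi, NNReal.coe_one]
            linarith [Real.pi_gt_three]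
          exact_mod_cast this
  calc ENNReal.ofReal (η ^ 2 / 16) ^ (M ^ 2 - Q ^ 2 * m ^ 2) * vb m (aff c₁ c₂) ^ (Q ^ 2)
      ≤ volume B * vb m (aff c₁ c₂) ^ (Q ^ 2) := by gcongr
    _ = ∫⁻ g : Gs M m Q → ℂ, ∫⁻ w : Fin Q × Fin Q → Fin m × Fin m → ℂ,
          B.indicator 1 g * ∏ a, K.indicator (1 : (Fin m × Fin m → ℂ) → ℝ≥0∞) (w a) := by
        have e1 : ∀ g : Gs M m Q → ℂ, ∫⁻ w : Fin Q × Fin Q → Fin m × Fin m → ℂ,
          B.indicator 1 g * ∏ a, K.indicator (1 : (Fin m × Fin m → ℂ) → ℝ≥0∞) (w a) =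
            B.indicator 1 g * vb m (aff c₁ c₂) ^ (Q ^ 2) := by
          intro g
          rw [lintegral_const_mul]
          · rw [hprod]
            simp only [lintegral_indicator_one hKm, hKv, Finset.prod_const, Finset.card_univ,
              Fintype.card_prod, Fintype.card_fin]
            rw [sq Q]
          · refine Finset.measurable_prod _ fun a _ => ?_
            exact (measurable_one.indicator hKm).comp (measurable_pi_apply a)
        simp only [e1]
        rw [lintegral_mul_const _ (measurable_one.indicator hBm), lintegral_indicator_one hBm]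
    _ ≤ ∫⁻ g : Gs M m Q → ℂ, ∫⁻ w : Fin Q × Fin Q → Fin m × Fin m → ℂ,
          (PT M d₀ d₁ d₂).indicator 1 (comb (eq hQ) g w) :=
        lintegral_mono fun g => lintegral_mono fun w => hpt g w
    _ = vt M d₀ d₁ d₂ := by
        rw [← hcomb, lintegral_indicator_one hPm]
        rfl

theorem tile : S_tile := by
  intro m c₁ c₂ κ η ε hm hP hη hη1 hε hv
  set L := Real.log (16 / η ^ 2) with hL
  have hη2 : η ^ 2 ≤ 1 := by nlinarith
  have hη0 : 0 < η ^ 2 := by positivity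
  have hL0 : 0 ≤ L := Real.log_nonneg (by rw [le_div_iff₀ hη0]; linarith)
  set R : ℝ := (m : ℝ) + 1 with hR
  have hR0 : 0 < R := by positivity
  filter_upwards [eventually_ge_atTop ⌈2 * R * (|κ| + L) / ε⌉₊] with M hM hne
  have hM' : 2 * R * (|κ| + L) / ε ≤ M := Nat.ceil_le.1 hM
  set Q := M / (m + 1) with hQdef
  have hQ : Q * (m + 1) ≤ M := Nat.div_mul_le_self _ _
  have hQ2 : M < (Q + 1) * (m + 1) := by
    have h := Nat.div_add_mod M (m + 1)
    have h3 : M % (m + 1) < m + 1 := Nat.mod_lt _ (by omega)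
    rw [← hQdef] at h
    nlinarith
  refine le_trans ?_ (core hQ hP hη hη1)
  have hQr : (Q : ℝ) * R ≤ M := by rw [hR]; exact_mod_cast hQ
  have hQr2 : (M : ℝ) ≤ (Q + 1) * R := by rw [hR]; exact_mod_cast hQ2.le
  have hle : Q ^ 2 * m ^ 2 ≤ M ^ 2 := by
    rw [← mul_pow]
    exact Nat.pow_le_pow_left (le_trans (Nat.mul_le_mul_left _ (Nat.le_succ _)) hQ) 2
  have hlow : ENNReal.ofReal (Real.exp (-(L * ((M : ℝ) ^ 2 - Q ^ 2 * m ^ 2)) + κ * R ^ 2 * Q ^ 2)) ≤
      ENNReal.ofReal (η ^ 2 / 16) ^ (M ^ 2 - Q ^ 2 * m ^ 2) * vb m (aff c₁ c₂) ^ (Q ^ 2) := by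
    have e1 : Real.exp (-(L * ((M : ℝ) ^ 2 - Q ^ 2 * m ^ 2))) =
        (η ^ 2 / 16) ^ (M ^ 2 - Q ^ 2 * m ^ 2) := by
      have : ((M ^ 2 - Q ^ 2 * m ^ 2 : ℕ) : ℝ) = (M : ℝ) ^ 2 - Q ^ 2 * m ^ 2 := by
        rw [Nat.cast_sub hle]; push_cast; ring
      rw [← this, ← neg_mul, mul_comm, Real.exp_nat_mul]
      congr 1
      rw [hL, ← Real.log_inv, Real.exp_log (by positivity)]
      rw [inv_div]
    rw [Real.exp_add, e1, ENNReal.ofReal_mul (by positivity), ENNReal.ofReal_pow (by positivity)]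
    refine mul_le_mul_right ?_ _
    have e2 : Real.exp (κ * R ^ 2 * Q ^ 2) = Real.exp (κ * R ^ 2) ^ (Q ^ 2) := by
      rw [← Real.exp_nat_mul]
      congr 1; push_cast; ring
    rw [e2, ENNReal.ofReal_pow (by positivity)]
    exact pow_le_pow_left' hv _
  refine le_trans (ENNReal.ofReal_le_ofReal (Real.exp_le_exp.2 ?_)) hlow
  have hM0 : (0 : ℝ) ≤ M := Nat.cast_nonneg M
  have hm1 : (1 : ℝ) ≤ m := by exact_mod_cast hm
  have hQ0 : (0 : ℝ) ≤ Q := Nat.cast_nonneg Q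
  set x : ℝ := Q * R with hx
  have hx0 : 0 ≤ x := by positivity
  have hx1 : (M : ℝ) - R ≤ x := by rw [hx]; linarith
  have hxM : (M : ℝ) ^ 2 - x ^ 2 ≤ 2 * R * M := by
    have : (M : ℝ) ^ 2 - x ^ 2 = (M - x) * (M + x) := by ring
    rw [this]
    have h1 : (M - x) * (M + x) ≤ R * (M + x) :=
      mul_le_mul_of_nonneg_right (by linarith) (by linarith)
    nlinarith
  have hx2 : x ^ 2 ≤ (M : ℝ) ^ 2 := by nlinarith
  have hκ : κ * (M : ℝ) ^ 2 - 2 * R * M * |κ| ≤ κ * R ^ 2 * Q ^ 2 := by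
    have e : κ * R ^ 2 * Q ^ 2 = κ * x ^ 2 := by rw [hx]; ring
    rw [e]
    have h1 : κ * ((M : ℝ) ^ 2 - x ^ 2) ≤ |κ| * ((M : ℝ) ^ 2 - x ^ 2) :=
      mul_le_mul_of_nonneg_right (le_abs_self _) (by linarith)
    have h2 : |κ| * ((M : ℝ) ^ 2 - x ^ 2) ≤ |κ| * (2 * R * M) :=
      mul_le_mul_of_nonneg_left hxM (abs_nonneg _)
    nlinarith
  have hm2 : (M : ℝ) ^ 2 - Q ^ 2 * m ^ 2 ≤ 2 / R * M ^ 2 + 2 * R * M := by
    have hQm : (Q : ℝ) * m = x * (1 - 1 / R) := by
      rw [hx, hR]; field_simp; ring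
    have e : (Q : ℝ) ^ 2 * m ^ 2 = x ^ 2 * (1 - 1 / R) ^ 2 := by rw [← mul_pow, hQm, mul_pow]
    rw [e]
    have h1 : 1 - 2 / R ≤ (1 - 1 / R) ^ 2 := by
      have : (1 - 1 / R) ^ 2 = 1 - 2 / R + (1 / R) ^ 2 := by ring
      rw [this]
      nlinarith [sq_nonneg (1 / R)]
    have h2 : x ^ 2 * (1 - 2 / R) ≤ x ^ 2 * (1 - 1 / R) ^ 2 :=
      mul_le_mul_of_nonneg_left h1 (sq_nonneg _)
    have h3 : x ^ 2 * (2 / R) ≤ M ^ 2 * (2 / R) :=
      mul_le_mul_of_nonneg_right hx2 (by positivity)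
    nlinarith
  have hLm : L * ((M : ℝ) ^ 2 - Q ^ 2 * m ^ 2) ≤ L * (2 / R * M ^ 2 + 2 * R * M) :=
    mul_le_mul_of_nonneg_left hm2 hL0
  have hfin : 2 * R * (|κ| + L) * M ≤ ε * M ^ 2 := by
    rw [div_le_iff₀ hε] at hM'
    nlinarith
  have e : (M : ℝ) ^ 2 * (κ - 2 / R * L - ε) =
      κ * M ^ 2 - L * (2 / R * M ^ 2) - ε * M ^ 2 := by ring
  rw [e]
  nlinarith

end Pool.Agent.H93.CP.Tile
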